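import Mathlib

/-!
# Independence of the numbers `1 - ζ ^ a` modulo `p`-th powers: definitions
-/

set_option autoImplicit false

open Finset

namespace Pool.Agent.V7H48.KV

/-- `w` is a root of unity -/
def IsRootOfUnity {K : Type} [Field K] (w : K) : Prop := ∃ m : ℕ, 0 < m ∧ w ^ m = 1

/-- Any `n` of the numbers `1 - ζ ^ a`, `1 ≤ a ≤ (p - 1) / 2`, are independent modulo `p`-th powers
and roots of unity in the field of the `p`-th roots of unity: a product of powers of at most `n` of
them is a root of unity times a `p`-th power only if `p` divides all the exponents. -/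
def Independent (p n : ℕ) : Prop :=
  ∀ (K : Type) [Field K] [CharZero K] [IsCyclotomicExtension {p} ℚ K] (ζ : K),
    IsPrimitiveRoot ζ p → ∀ A : Finset ℕ, A ⊆ Icc 1 ((p - 1) / 2) → A.card ≤ n → ∀ c : ℕ → ℤ,
      (∃ w y : K, IsRootOfUnity w ∧ ∏ a ∈ A, (1 - ζ ^ a) ^ (c a) = w * y ^ p) →
        ∀ a ∈ A, (p : ℤ) ∣ c a

end Pool.Agent.V7H48.KV
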