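import Mathlib
import Pool.Agent.TH350.VD.Kummer
import Pool.Agent.V7H48.KV.Defs

/-!
# Kummer's logarithmic derivative for arbitrary products of the `1 - ζ ^ a`
-/

set_option autoImplicit false
set_option linter.unusedSectionVars false

open Finset

namespace Pool.Agent.V7H48.KV

open Pool.Agent.TH350.VD Pool.Agent.H332R2

section series

open PowerSeries

variable {p : ℕ} [hp : Fact p.Prime]

lemma LD_ex {k : ℕ} (hk2 : 2 ≤ k) (hk : k + 2 ≤ p) : coeff (k - 1) (LD (ex p)) = 0 := by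
  have h2 : (X : PowerSeries (ZMod p)) ^ (p - 1) ∣ dd (ex p) - ex p := by
    rw [X_pow_dvd_iff]
    intro m hm
    rw [map_sub, coeff_dd]
    unfold ex
    rw [coeff_mk, coeff_mk, Nat.factorial_succ]
    have hm1 := fact_ne_zero (p := p) (k := m) (by omega)
    have hm2 := nat_ne_zero (p := p) (k := m + 1) (by omega) (by omega)
    push_cast at hm2 ⊢
    field_simp
    ring
  have hc : constantCoeff (ex p) ≠ 0 := by rw [ex_const]; exact one_ne_zero
  have h3 : (X : PowerSeries (ZMod p)) ^ (p - 1) ∣ LD (ex p) - 1 := by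
    have h4 : LD (ex p) - 1 = (dd (ex p) - ex p) * (ex p)⁻¹ := by
      unfold LD
      rw [sub_mul, PowerSeries.mul_inv_cancel (ex p) hc]
    rw [h4]
    exact h2.mul_right _
  rw [X_pow_dvd_iff] at h3
  have h5 := h3 (k - 1) (by omega)
  rw [map_sub, coeff_one, if_neg (by omega), sub_zero] at h5
  exact h5

/-- the main computation, for power series -/
theorem main_ps' {ι : Type} (s : Finset ι) (a v : ι → ℕ) (r : ℕ)
    (ha : ∀ i ∈ s, 1 ≤ a i ∧ a i < p) (c : ZMod p) {k : ℕ} (hk2 : 2 ≤ k) (hk : k + 2 ≤ p)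
    (h : (X : PowerSeries (ZMod p)) ^ (p - 1) ∣
      C c - ex p ^ r * ∏ i ∈ s, ww p (a i) ^ v i) :
    (∑ i ∈ s, (v i : ZMod p) * ((a i : ZMod p) ^ k - 1)) * cc p k = 0 := by
  have hw : ∀ i ∈ s, constantCoeff (ww p (a i)) ≠ 0 := fun i hi => ww_ne (ha i hi).1 (ha i hi).2
  have hc : constantCoeff (ex p) ≠ 0 := by rw [ex_const]; exact one_ne_zero
  obtain ⟨h1, h2⟩ := LD_prod s (fun i => ww p (a i)) v hw
  have hp1 : p - 1 = (p - 2) + 1 := by omega
  have hL : LD (ex p ^ r * ∏ i ∈ s, ww p (a i) ^ v i) =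
      r • LD (ex p) + ∑ i ∈ s, v i • LD (ww p (a i)) := by
    rw [LD_mul (cc_pow_ne hc r) h1, LD_pow hc, h2]
  set W := ex p ^ r * ∏ i ∈ s, ww p (a i) ^ v i with hW
  have h3 : (X : PowerSeries (ZMod p)) ^ (p - 2) ∣ LD W := by
    have h4 := h
    rw [hp1] at h4
    have h5 := dvd_deriv h4
    rw [dd_sub, dd_C, zero_sub, dvd_neg] at h5
    exact h5.mul_right _
  rw [X_pow_dvd_iff] at h3
  have h4 := h3 (k - 1) (by omega)
  rw [hL, map_add, map_nsmul, LD_ex hk2 hk, smul_zero, zero_add, map_sum] at h4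
  have h5 : ∀ i ∈ s, coeff (k - 1) ((v i) • LD (ww p (a i))) =
      ((v i : ZMod p) * ((a i : ZMod p) ^ k - 1)) * cc p k := by
    intro i hi
    rw [map_nsmul, LD_ww (ha i hi).1 (ha i hi).2 (by omega), LD_q1 hk2 hk, nsmul_eq_mul,
      show k - 1 + 1 = k by omega]
    ring
  rw [Finset.sum_congr rfl h5, ← Finset.sum_mul] at h4
  exact h4

end series

variable {p : ℕ} [hp : Fact p.Prime] {K : Type} [Field K] [CharZero K]
  [hK : IsCyclotomicExtension {p} ℚ K] {ζ : K}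

lemma one_sub_ne' (hζ : IsPrimitiveRoot ζ p) {a : ℕ} (h1 : 1 ≤ a) (h2 : a < p) :
    (1 : K) - ζ ^ a ≠ 0 := by
  rw [sub_ne_zero]
  exact (hζ.pow_ne_one_of_pos_of_lt (by omega) h2).symm

lemma IsRootOfUnity.ne_zero {w : K} (h : IsRootOfUnity w) : w ≠ 0 := by
  obtain ⟨m, hm, h1⟩ := h
  rintro rfl
  rw [zero_pow hm.ne'] at h1
  exact zero_ne_one h1

/-- The sum of the exponents of a `p`-th power is divisible by `p`. -/
theorem sum_dvd' (hpne : p ≠ 2) (hζ : IsPrimitiveRoot ζ p) {ι : Type} (s : Finset ι)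
    (a : ι → ℕ) (ha : ∀ i ∈ s, 1 ≤ a i ∧ a i < p) (v : ι → ℕ) (w y : K) (hw : IsRootOfUnity w)
    (h : ∏ i ∈ s, (1 - ζ ^ a i) ^ (v i) = w * y ^ p) : p ∣ ∑ i ∈ s, v i := by
  classical
  have : NumberField K := IsCyclotomicExtension.numberField {p} ℚ K
  have hN0 : ∀ x : K, x ≠ 0 → Algebra.norm ℚ x ≠ 0 := fun x hx => by
    rwa [ne_eq, Algebra.norm_eq_zero_iff]
  have htor : ∀ z : K, IsRootOfUnity z → padicValRat p (Algebra.norm ℚ z) = 0 := by
    intro z hz
    obtain ⟨m, hm, h1⟩ := hz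
    have h2 := congrArg (fun x => padicValRat p (Algebra.norm ℚ x)) h1
    simp only [map_pow, map_one] at h2
    rw [padicValRat.pow] at h2
    simp only [padicValRat.one] at h2
    rcases mul_eq_zero.1 h2 with h3 | h3
    · exact absurd h3 (by exact_mod_cast hm.ne')
    · exact h3
  have hone : ∀ i ∈ s, padicValRat p (Algebra.norm ℚ (1 - ζ ^ a i)) = 1 := by
    intro i hi
    have hcop : (a i).Coprime p := by
      rw [Nat.coprime_comm]
      refine (Nat.Prime.coprime_iff_not_dvd hp.out).2 fun h => ?_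
      have := Nat.le_of_dvd (ha i hi).1 h
      have := (ha i hi).2
      omega
    have h1 : IsPrimitiveRoot (ζ ^ a i) p := hζ.pow_of_coprime (a i) hcop
    have h2 := h1.norm_sub_one_of_prime_ne_two' (K := ℚ)
      (Polynomial.cyclotomic.irreducible_rat hp.out.pos) hpne
    have h3 : (1 : K) - ζ ^ a i = -1 * (ζ ^ a i - 1) := by ring
    rw [h3, map_mul, h2, padicValRat.mul (hN0 _ (neg_ne_zero.2 one_ne_zero))
      (by exact_mod_cast hp.out.ne_zero), htor (-1) ⟨2, two_pos, by norm_num⟩, zero_add]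
    exact padicValRat.self hp.out.one_lt
  have hprodv : ∀ t : Finset ι, t ⊆ s →
      padicValRat p (Algebra.norm ℚ (∏ i ∈ t, (1 - ζ ^ a i) ^ (v i))) =
        ((∑ i ∈ t, v i : ℕ) : ℤ) := by
    intro t
    induction t using Finset.induction_on with
    | empty => simp
    | insert b t hb ih =>
      intro hs
      have h1 := hs (Finset.mem_insert_self b t)
      have h2 : t ⊆ s := fun x hx => hs (Finset.mem_insert_of_mem hx)
      rw [Finset.prod_insert hb, Finset.sum_insert hb, map_mul, padicValRat.mul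
        (hN0 _ (pow_ne_zero _ (one_sub_ne' hζ (ha b h1).1 (ha b h1).2)))
        (hN0 _ (Finset.prod_ne_zero_iff.2
          fun x hx => pow_ne_zero _ (one_sub_ne' hζ (ha x (h2 hx)).1 (ha x (h2 hx)).2))), ih h2,
        map_pow, padicValRat.pow, hone b h1]
      push_cast
      ring
  have hp0 : p ≠ 0 := hp.out.ne_zero
  have hy : y ≠ 0 := by
    rintro rfl
    rw [zero_pow hp0, mul_zero] at h
    exact Finset.prod_ne_zero_iff.2
      (fun i hi => pow_ne_zero _ (one_sub_ne' hζ (ha i hi).1 (ha i hi).2)) h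
  have h5 := hprodv s subset_rfl
  rw [h, map_mul, map_pow, padicValRat.mul (hN0 _ hw.ne_zero) (pow_ne_zero _ (hN0 _ hy)),
    htor w hw, zero_add, padicValRat.pow] at h5
  have h6 : ((p : ℕ) : ℤ) ∣ ((∑ i ∈ s, v i : ℕ) : ℤ) := ⟨_, h5.symm⟩
  exact_mod_cast h6

/-- KUMMER, for arbitrary products -/
theorem kummer_nat (hpne : p ≠ 2) (hζ : IsPrimitiveRoot ζ p) {ι : Type} (s : Finset ι)
    (a : ι → ℕ) (ha : ∀ i ∈ s, 1 ≤ a i ∧ a i < p) (v : ι → ℕ) (w y : K) (hw : IsRootOfUnity w)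
    (h : ∏ i ∈ s, (1 - ζ ^ a i) ^ (v i) = w * y ^ p) {k : ℕ} (hk2 : 2 ≤ k) (hk : k + 2 ≤ p)
    (hc : cc p k ≠ 0) : ∑ i ∈ s, (v i : ZMod p) * (a i : ZMod p) ^ k = 0 := by
  classical
  have : NumberField K := IsCyclotomicExtension.numberField {p} ℚ K
  have hp0 : p ≠ 0 := hp.out.ne_zero
  have hodd : Odd p := hp.out.odd_of_ne_two hpne
  have hζ1 : ζ ≠ 1 := hζ.ne_one hp.out.one_lt
  have hζ0 : ζ ≠ 0 := hζ.ne_zero hp0
  have hone : (1 : K) - ζ ≠ 0 := sub_ne_zero.2 hζ1.symm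
  obtain ⟨t, ht⟩ := sum_dvd' hpne hζ s a ha v w y hw h
  -- the root of unity
  obtain ⟨m, hm, hwm⟩ := hw
  have hfin : IsOfFinOrder w := isOfFinOrder_iff_pow_eq_one.2 ⟨m, hm, hwm⟩
  obtain ⟨r, hr⟩ := hζ.exists_neg_pow_of_isOfFinOrder hodd hfin
  set z : K := (-1) ^ r * (y / (1 - ζ) ^ t) with hz
  have h1 : ζ ^ ((p - 1) * r) * ∏ i ∈ s, ((1 - ζ ^ a i) / (1 - ζ)) ^ (v i) = z ^ p := by
    have e1 : ∏ i ∈ s, ((1 - ζ ^ a i) / (1 - ζ)) ^ (v i) =
        (∏ i ∈ s, (1 - ζ ^ a i) ^ (v i)) / ((1 - ζ) ^ t) ^ p := by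
      rw [← pow_mul, mul_comm t p, ← ht, ← Finset.prod_pow_eq_pow_sum, ← Finset.prod_div_distrib]
      exact Finset.prod_congr rfl fun i _ => div_pow _ _ _
    have e2 : ((-1 : K) ^ r) ^ p = (-1) ^ r := by
      rw [← pow_mul, mul_comm r p, pow_mul, hodd.neg_one_pow]
    have e3 : ζ ^ ((p - 1) * r) * (-ζ) ^ r = (-1) ^ r := by
      have e4 : (-ζ) ^ r = (-1) ^ r * ζ ^ r := by rw [← mul_pow]; congr 1; ring
      have e5 : ζ ^ ((p - 1) * r) * ζ ^ r = 1 := by
        rw [← pow_add, show (p - 1) * r + r = p * r by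
          have := hp.out.one_le
          obtain ⟨q, hq⟩ : ∃ q, p = q + 1 := ⟨p - 1, by omega⟩
          rw [hq]; simp; ring, pow_mul, hζ.pow_eq_one, one_pow]
      rw [e4, mul_left_comm, e5, mul_one]
    rw [e1, h, hr, hz, mul_pow, e2, div_pow, ← e3]
    ring
  -- the polynomial
  set P : Polynomial ℤ := Polynomial.X ^ ((p - 1) * r) * ∏ i ∈ s, PP ℤ (a i) ^ (v i) with hP
  have hW : Polynomial.aeval ζ P = z ^ p := by
    rw [← h1, hP, map_mul, map_pow, Polynomial.aeval_X, map_prod]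
    congr 1
    refine Finset.prod_congr rfl fun i _ => ?_
    rw [map_pow]
    congr 1
    unfold PP
    rw [map_sum]
    simp only [map_pow, Polynomial.aeval_X]
    rw [geom_sum_eq hζ1, ← neg_sub (1 : K) (ζ ^ a i), ← neg_sub (1 : K) ζ, neg_div_neg_eq]
  have hint : IsIntegral ℤ ζ := hζ.isIntegral hp.out.pos
  have hyp : IsIntegral ℤ (z ^ p) := by
    rw [← hW]
    have e : Polynomial.aeval ζ P =
        ((Polynomial.aeval (⟨ζ, hint⟩ : integralClosure ℤ K) P : integralClosure ℤ K) : K) := by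
      rw [← Subalgebra.aeval_coe]
    rw [e]
    exact (Polynomial.aeval (⟨ζ, hint⟩ : integralClosure ℤ K) P).2
  have hyi : IsIntegral ℤ z := IsIntegral.of_pow hp.out.pos hyp
  have hcl := IsCyclotomicExtension.Rat.isIntegralClosure_adjoin_singleton_of_prime hζ
  obtain ⟨z', hz'⟩ := hcl.isIntegral_iff.1 hyi
  have hz2 : z ∈ Algebra.adjoin ℤ ({ζ} : Set K) := by rw [← hz']; exact z'.2
  rw [Algebra.adjoin_singleton_eq_range_aeval] at hz2
  obtain ⟨f, hf'⟩ := hz2
  replace hf' : Polynomial.aeval ζ f = z := hf'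
  have h2 : Polynomial.aeval ζ (P - f ^ p) = 0 := by
    rw [map_sub, map_pow, hW, hf', sub_self]
  have h3 := minpoly.isIntegrallyClosed_dvd hint h2
  rw [← Polynomial.cyclotomic_eq_minpoly hζ hp.out.pos] at h3
  have h4 := Polynomial.map_dvd (Int.castRingHom (ZMod p)) h3
  have hcm : Polynomial.cyclotomic p (ZMod p) = (Polynomial.X - 1) ^ (p - 1) := by
    have := cyclo_mod p 0
    simpa using this
  rw [Polynomial.map_cyclotomic, Polynomial.map_sub, Polynomial.map_pow, hcm] at h4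
  set g := f.map (Int.castRingHom (ZMod p)) with hg
  have hPm : P.map (Int.castRingHom (ZMod p)) =
      Polynomial.X ^ ((p - 1) * r) * ∏ i ∈ s, PP (ZMod p) (a i) ^ (v i) := by
    rw [hP, Polynomial.map_mul, Polynomial.map_pow, Polynomial.map_X, Polynomial.map_prod]
    congr 1
    refine Finset.prod_congr rfl fun i _ => ?_
    rw [Polynomial.map_pow]
    congr 1
    unfold PP
    rw [Polynomial.map_sum]
    refine Finset.sum_congr rfl fun j _ => ?_
    rw [Polynomial.map_pow, Polynomial.map_X]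
  rw [hPm] at h4
  -- substitute the exponential
  have h5 := map_dvd (Polynomial.aeval (ex p) : Polynomial (ZMod p) →ₐ[ZMod p] PowerSeries (ZMod p)) h4
  rw [map_pow, map_sub, map_sub, map_pow, Polynomial.aeval_X, map_one] at h5
  have h6 : Polynomial.aeval (ex p)
      (Polynomial.X ^ ((p - 1) * r) * ∏ i ∈ s, PP (ZMod p) (a i) ^ (v i)) =
      ex p ^ ((p - 1) * r) * ∏ i ∈ s, ww p (a i) ^ (v i) := by
    rw [map_mul, map_pow, Polynomial.aeval_X, map_prod]
    congr 1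
    refine Finset.prod_congr rfl fun i _ => ?_
    rw [map_pow]
    congr 1
    unfold PP ww
    rw [map_sum]
    simp only [map_pow, Polynomial.aeval_X]
  rw [h6] at h5
  set G : PowerSeries (ZMod p) := Polynomial.aeval (ex p) g with hG
  obtain ⟨H, hH⟩ : ∃ H, G = PowerSeries.C (PowerSeries.constantCoeff G) + PowerSeries.X * H := by
    have : (PowerSeries.X : PowerSeries (ZMod p)) ∣ G - PowerSeries.C (PowerSeries.constantCoeff G) := by
      rw [PowerSeries.X_dvd_iff]; simp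
    obtain ⟨H, hH⟩ := this
    exact ⟨H, by rw [← hH]; ring⟩
  have h7 : G ^ p = PowerSeries.C (PowerSeries.constantCoeff G) + PowerSeries.X ^ p * H ^ p := by
    have hcp : CharP (PowerSeries (ZMod p)) p :=
      charP_of_injective_ringHom (f := (PowerSeries.C : ZMod p →+* PowerSeries (ZMod p)))
        PowerSeries.C_injective p
    conv_lhs => rw [hH]
    rw [add_pow_char, mul_pow, ← map_pow, ZMod.pow_card]
  have h8 : (PowerSeries.X : PowerSeries (ZMod p)) ^ (p - 1) ∣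
      PowerSeries.C (PowerSeries.constantCoeff G) -
        ex p ^ ((p - 1) * r) * ∏ i ∈ s, ww p (a i) ^ (v i) := by
    have h9 : (PowerSeries.X : PowerSeries (ZMod p)) ^ (p - 1) ∣ (ex p - 1) ^ (p - 1) := by
      rw [ex_eq, add_sub_cancel_left, mul_pow]
      exact dvd_mul_right _ _
    have h10 := h9.trans h5
    have h11 : (PowerSeries.X : PowerSeries (ZMod p)) ^ (p - 1) ∣ PowerSeries.X ^ p * H ^ p :=
      (pow_dvd_pow _ (Nat.sub_le p 1)).mul_right _
    have h12 : PowerSeries.C (PowerSeries.constantCoeff G) -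
        ex p ^ ((p - 1) * r) * ∏ i ∈ s, ww p (a i) ^ (v i) =
        -(ex p ^ ((p - 1) * r) * ∏ i ∈ s, ww p (a i) ^ (v i) - G ^ p) -
          PowerSeries.X ^ p * H ^ p := by
      rw [h7]; ring
    rw [h12]
    exact dvd_sub ((dvd_neg).2 h10) h11
  have h13 := main_ps' s a v _ ha _ hk2 hk h8
  have h14 : ∑ i ∈ s, (v i : ZMod p) * ((a i : ZMod p) ^ k - 1) = 0 :=
    (mul_eq_zero.1 h13).resolve_right hc
  have h15 : ∑ i ∈ s, (v i : ZMod p) = 0 := by
    have := congrArg (fun x : ℕ => (x : ZMod p)) ht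
    push_cast at this
    rw [this]
    simp
  simp only [mul_sub, mul_one, Finset.sum_sub_distrib, h15, sub_zero] at h14
  exact h14

/-- KUMMER, for arbitrary products with integral exponents: the two conditions -/
theorem kummer_int (hpne : p ≠ 2) (hζ : IsPrimitiveRoot ζ p) {ι : Type} (s : Finset ι)
    (a : ι → ℕ) (ha : ∀ i ∈ s, 1 ≤ a i ∧ a i < p) (c : ι → ℤ) (w y : K) (hw : IsRootOfUnity w)
    (h : ∏ i ∈ s, (1 - ζ ^ a i) ^ (c i) = w * y ^ p) :
    (∑ i ∈ s, (c i : ZMod p)) = 0 ∧ ∀ k : ℕ, 2 ≤ k → k + 3 ≤ p →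
      ¬ (p : ℤ) ∣ (bernoulli k).num → ∑ i ∈ s, (c i : ZMod p) * (a i : ZMod p) ^ k = 0 := by
  classical
  have hp0 : (0 : ℤ) < p := by exact_mod_cast hp.out.pos
  set v : ι → ℕ := fun i => (c i % p).toNat with hv
  have hv1 : ∀ i, (v i : ℤ) = c i % p := fun i => Int.toNat_of_nonneg (Int.emod_nonneg _ hp0.ne')
  have hv2 : ∀ i, c i = v i + p * (c i / p) := fun i => by
    rw [hv1]; exact (Int.emod_add_mul_ediv _ _).symm
  have hv3 : ∀ i, ((v i : ℕ) : ZMod p) = (c i : ZMod p) := fun i => by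
    have := congrArg (fun x : ℤ => (x : ZMod p)) (hv2 i)
    push_cast at this
    rw [this]
    simp
  set Y : K := ∏ i ∈ s, (1 - ζ ^ a i) ^ (c i / p) with hY
  have hY0 : Y ≠ 0 := Finset.prod_ne_zero_iff.2 fun i hi =>
    zpow_ne_zero _ (one_sub_ne' hζ (ha i hi).1 (ha i hi).2)
  have h1 : ∏ i ∈ s, (1 - ζ ^ a i) ^ (v i) = w * (y / Y) ^ p := by
    have h2 : ∏ i ∈ s, (1 - ζ ^ a i) ^ (c i) = (∏ i ∈ s, (1 - ζ ^ a i) ^ (v i)) * Y ^ p := by
      rw [hY, ← Finset.prod_pow, ← Finset.prod_mul_distrib]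
      refine Finset.prod_congr rfl fun i hi => ?_
      have h3 := one_sub_ne' hζ (ha i hi).1 (ha i hi).2
      conv_lhs => rw [hv2 i]
      rw [zpow_add₀ h3, zpow_natCast, mul_comm (p : ℤ), zpow_mul, zpow_natCast]
    rw [div_pow, mul_div_assoc', ← h, h2, mul_div_cancel_right₀ _ (pow_ne_zero _ hY0)]
  constructor
  · have h2 := sum_dvd' hpne hζ s a ha v w (y / Y) hw h1
    have h3 : ((∑ i ∈ s, v i : ℕ) : ZMod p) = 0 := (ZMod.natCast_eq_zero_iff _ _).2 h2
    push_cast at h3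
    rw [← h3]
    exact Finset.sum_congr rfl fun i _ => (hv3 i).symm
  · intro k hk2 hk hreg
    have h2 : cc p k ≠ 0 := fun h0 => hreg ((cc_eq_zero_iff (by omega) (by omega)).1 h0)
    have h3 := kummer_nat hpne hζ s a ha v w (y / Y) hw h1 hk2 (by omega) h2
    rw [← h3]
    exact Finset.sum_congr rfl fun i _ => by rw [hv3 i]

end Pool.Agent.V7H48.KV
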