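import Mathlib
import Pool.Agent.V7H48.KV.Kummer
import Pool.Agent.Results.MP_a3a416_nt.SparseIrregular
import Pool.Agent.Results.MP_a3a416_nt.RegularClasses

/-!
# Few of the numbers `1 - ζ ^ a` are independent modulo `p`-th powers
-/

set_option autoImplicit false

open Finset Filter Topology

namespace Pool.Agent.V7H48.KV

open Pool.Agent.H332R2

/-- power sums determine a function with small support -/
theorem vander {F : Type} [Field F] {ι : Type} (s : Finset ι) (x : ι → F)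
    (hx : Set.InjOn x s) (c : ι → F) (h : ∀ m < s.card, ∑ i ∈ s, c i * x i ^ m = 0) :
    ∀ i ∈ s, c i = 0 := by
  classical
  intro i₀ hi₀
  set q : Polynomial F := ∏ i ∈ s.erase i₀, (Polynomial.X - Polynomial.C (x i)) with hq
  have hdeg : q.natDegree = s.card - 1 := by
    rw [hq, Polynomial.natDegree_prod_of_monic _ _ fun i _ => Polynomial.monic_X_sub_C _]
    simp [card_erase_of_mem hi₀]
  have hpos : 0 < s.card := card_pos.2 ⟨i₀, hi₀⟩
  have h1 : ∑ i ∈ s, c i * q.eval (x i) = 0 := by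
    have h2 : ∀ i, q.eval (x i) = ∑ m ∈ range s.card, q.coeff m * x i ^ m := by
      intro i
      rw [Polynomial.eval_eq_sum_range, hdeg, Nat.sub_add_cancel hpos]
    simp only [h2, mul_sum]
    rw [sum_comm]
    refine sum_eq_zero fun m hm => ?_
    have h3 := h m (mem_range.1 hm)
    calc ∑ i ∈ s, c i * (q.coeff m * x i ^ m) = q.coeff m * ∑ i ∈ s, c i * x i ^ m := by
          rw [mul_sum]
          exact sum_congr rfl fun i _ => by ring
      _ = 0 := by rw [h3, mul_zero]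
  rw [← sum_erase_add _ _ hi₀] at h1
  have h2 : ∑ i ∈ s.erase i₀, c i * q.eval (x i) = 0 := by
    refine sum_eq_zero fun i hi => ?_
    rw [hq, Polynomial.eval_prod, prod_eq_zero hi (by simp), mul_zero]
  rw [h2, zero_add] at h1
  refine (mul_eq_zero.1 h1).resolve_right ?_
  rw [hq, Polynomial.eval_prod]
  refine prod_ne_zero_iff.2 fun i hi => ?_
  rw [Polynomial.eval_sub, Polynomial.eval_X, Polynomial.eval_C, sub_ne_zero]
  intro h3
  exact (mem_erase.1 hi).1 (hx (mem_erase.1 hi).2 hi₀ h3.symm)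

/-- If the first Bernoulli numbers are not divisible by `p` then few of the numbers `1 - ζ ^ a` are
independent. -/
theorem indep_of {p : ℕ} [hp : Fact p.Prime] (n : ℕ)
    (h : ∀ m, 1 ≤ m → m < n → 2 * m + 3 ≤ p → ¬ (p : ℤ) ∣ (bernoulli (2 * m)).num) :
    Independent p n := by
  intro K _ _ _ ζ hζ A hA hn c hc a₀ ha₀
  obtain ⟨w, y, hw, hprod⟩ := hc
  have hA1 : ∀ a ∈ A, 1 ≤ a ∧ a ≤ (p - 1) / 2 := fun a ha => mem_Icc.1 (hA ha)
  have hp3 : 3 ≤ p := by have := hA1 a₀ ha₀; omega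
  have hp2 : p % 2 = 1 := by
    rcases hp.out.eq_two_or_odd with h1 | h1
    · omega
    · exact h1
  have hcard : A.card ≤ (p - 1) / 2 := by
    have := card_le_card hA
    rwa [Nat.card_Icc, Nat.add_sub_cancel] at this
  obtain ⟨h0, h1⟩ := kummer_int (by omega) hζ A (fun a => a)
    (fun a ha => by have := hA1 a ha; omega) c w y hw hprod
  have hinj : Set.InjOn (fun a : ℕ => ((a : ℕ) : ZMod p) ^ 2) A := by
    intro a ha b hb hab
    have ha' := hA1 a (mem_coe.1 ha)
    have hb' := hA1 b (mem_coe.1 hb)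
    rcases sq_eq_sq_iff_eq_or_eq_neg.1 hab with h2 | h2
    · have h3 := congrArg ZMod.val h2
      rwa [ZMod.val_natCast, ZMod.val_natCast, Nat.mod_eq_of_lt (by omega),
        Nat.mod_eq_of_lt (by omega)] at h3
    · exfalso
      have h3 : ((a + b : ℕ) : ZMod p) = 0 := by
        push_cast
        rw [h2]
        ring
      rw [ZMod.natCast_eq_zero_iff] at h3
      have := Nat.le_of_dvd (by omega) h3
      omega
  have h2 := vander A (fun a : ℕ => ((a : ℕ) : ZMod p) ^ 2) hinj (fun a => ((c a : ℤ) : ZMod p))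
    (fun m hm => by
      rcases Nat.eq_zero_or_pos m with h3 | h3
      · subst h3
        simpa using h0
      · have h4 := h1 (2 * m) (by omega) (by omega) (h m h3 (by omega) (by omega))
        rw [← h4]
        exact sum_congr rfl fun a _ => by rw [pow_mul]) a₀ ha₀
  exact (ZMod.intCast_zmod_eq_zero_iff_dvd _ _).1 h2

theorem Independent.mono {p n m : ℕ} (h : Independent p n) (hmn : m ≤ n) : Independent p m :=
  fun K _ _ _ ζ hζ A hA hm c hc => h K ζ hζ A hA (hm.trans hmn) c hc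

open Classical in
/-- the number of the exceptional primes -/
theorem count_bad (X n : ℕ) :
    (((range (X + 1)).filter fun p => p.Prime ∧ ¬ Independent p n).card : ℝ) ≤
      √X + 2 * (n : ℝ) ^ 2 := by
  set S := (range (X + 1)).filter fun p => p.Prime ∧ ¬ Independent p n with hS
  have hX0 : (0 : ℝ) ≤ X := Nat.cast_nonneg X
  have hprop : ∀ p ∈ S, p.Prime ∧ p ≤ X ∧ 5 ≤ p ∧ ∃ m ∈ Icc 1 (n - 1), p ∣ nu m := by
    intro p hp
    rw [hS, mem_filter, mem_range] at hp
    obtain ⟨h1, h2, h3⟩ := hp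
    have : Fact p.Prime := ⟨h2⟩
    have h4 : ∃ m, 1 ≤ m ∧ m < n ∧ 2 * m + 3 ≤ p ∧ (p : ℤ) ∣ (bernoulli (2 * m)).num := by
      by_contra hcon
      push Not at hcon
      exact h3 (indep_of n fun m a b c d => hcon m a b c d)
    obtain ⟨m, hm1, hm2, hm3, hm4⟩ := h4
    exact ⟨h2, by omega, by omega, m, mem_Icc.2 ⟨hm1, by omega⟩, (dvd_nu_iff p m).1 hm4⟩
  rcases lt_or_ge (√(X : ℝ)) n with hn | hn
  · -- trivial bound
    have h1 : S ⊆ Icc 1 X := fun p hp => mem_Icc.2 ⟨by have := (hprop p hp).2.2.1; omega,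
      (hprop p hp).2.1⟩
    have h2 : (S.card : ℝ) ≤ X := by
      have := card_le_card h1
      rw [Nat.card_Icc, Nat.add_sub_cancel] at this
      exact_mod_cast this
    have h3 : (X : ℝ) ≤ (n : ℝ) ^ 2 := by
      have h4 := Real.sq_sqrt hX0
      have h5 := Real.sqrt_nonneg (X : ℝ)
      nlinarith
    have := Real.sqrt_nonneg (X : ℝ)
    nlinarith
  rcases S.eq_empty_or_nonempty with he | ⟨p₀, hp₀⟩
  · rw [he, card_empty]
    push_cast
    positivity
  have hX5 : (5 : ℝ) ≤ X := by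
    have h1 := hprop p₀ hp₀
    exact_mod_cast (by omega : 5 ≤ X)
  set Y : ℝ := √(X : ℝ) with hY
  have hY2 : 2 ≤ Y := by
    rw [hY]
    exact Real.le_sqrt_of_sq_le (by linarith)
  have hYl : Real.log 2 ≤ Real.log Y := Real.log_le_log (by norm_num) hY2
  have hl2 : 0 < Real.log 2 := Real.log_pos (by norm_num)
  have hsplit := card_filter_add_card_filter_not (s := S) fun p : ℕ => (p : ℝ) < Y
  -- small primes
  have hs1 : ((S.filter fun p : ℕ => (p : ℝ) < Y).card : ℝ) ≤ Y := by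
    have h1 : (S.filter fun p : ℕ => (p : ℝ) < Y) ⊆ Icc 1 ⌊Y⌋₊ := by
      intro p hp
      rw [mem_filter] at hp
      have h2 := (hprop p hp.1).2.2.1
      exact mem_Icc.2 ⟨by omega, Nat.le_floor hp.2.le⟩
    have h2 := card_le_card h1
    rw [Nat.card_Icc, Nat.add_sub_cancel] at h2
    calc ((S.filter fun p : ℕ => (p : ℝ) < Y).card : ℝ) ≤ (⌊Y⌋₊ : ℕ) := by exact_mod_cast h2
      _ ≤ Y := Nat.floor_le (by linarith)
  -- large primes
  have hs2 : ((S.filter fun p : ℕ => ¬ (p : ℝ) < Y).card : ℝ) ≤ 2 * (n : ℝ) ^ 2 := by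
    have h1 := card_small Y (by linarith) (S.filter fun p : ℕ => ¬ (p : ℝ) < Y) (n - 1)
      fun p hp => by
        rw [mem_filter] at hp
        exact ⟨(hprop p hp.1).1, not_lt.1 hp.2, (hprop p hp.1).2.2.2⟩
    have hn1 : 1 ≤ n := by
      obtain ⟨m, hm, -⟩ := (hprop p₀ hp₀).2.2.2
      have := mem_Icc.1 hm
      omega
    have hnr : (1 : ℝ) ≤ n := by exact_mod_cast hn1
    have h2 : ∑ m ∈ Icc 1 (n - 1), Real.log (nu m) ≤ (n : ℝ) ^ 2 * Real.log (2 * n) := by
      have h3 : ∀ m ∈ Icc 1 (n - 1), Real.log (nu m) ≤ 2 * m * Real.log (2 * n) := by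
        intro m hm
        rw [mem_Icc] at hm
        refine (log_nu_le m (by omega)).trans ?_
        have hm0 : (1 : ℝ) ≤ m := by exact_mod_cast hm.1
        have hmn : (m : ℝ) ≤ n := by exact_mod_cast (by omega : m ≤ n)
        have := Real.log_le_log (by linarith : (0 : ℝ) < 2 * m) (by linarith : (2 : ℝ) * m ≤ 2 * n)
        nlinarith
      refine (sum_le_sum h3).trans ?_
      rw [← sum_mul, ← mul_sum]
      have hlog : 0 ≤ Real.log (2 * n) := Real.log_nonneg (by linarith)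
      refine mul_le_mul_of_nonneg_right ?_ hlog
      have h4 : ∀ k : ℕ, 2 * ∑ m ∈ Icc 1 k, (m : ℝ) = k * (k + 1) := by
        intro k
        induction k with
        | zero => simp
        | succ k ih =>
          rw [sum_Icc_succ_top (by omega), mul_add, ih]
          push_cast
          ring
      rw [h4]
      have h5 : ((n - 1 : ℕ) : ℝ) = n - 1 := by
        rw [Nat.cast_sub hn1, Nat.cast_one]
      rw [h5]
      nlinarith
    have h3 : Real.log (2 * n) ≤ 2 * Real.log Y := by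
      rw [Real.log_mul (by norm_num) (by linarith)]
      have := Real.log_le_log (by linarith : (0 : ℝ) < n) hn
      linarith
    have h4 : 0 < Real.log Y := by linarith
    have h5 : ((S.filter fun p : ℕ => ¬ (p : ℝ) < Y).card : ℝ) * Real.log Y ≤
        (2 * (n : ℝ) ^ 2) * Real.log Y := by
      calc _ ≤ (n : ℝ) ^ 2 * Real.log (2 * n) := h1.trans h2
        _ ≤ (n : ℝ) ^ 2 * (2 * Real.log Y) := by gcongr
        _ = _ := by ring
    exact le_of_mul_le_mul_right h5 h4
  have h6 : (S.card : ℝ) = ((S.filter fun p : ℕ => (p : ℝ) < Y).card : ℝ) +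
      ((S.filter fun p : ℕ => ¬ (p : ℝ) < Y).card : ℝ) := by exact_mod_cast hsplit.symm
  rw [h6]
  linarith

/-- almost all primes -/
theorem density (ψ : ℕ → ℝ) (hψ : Tendsto ψ atTop atTop) :
    Tendsto (fun X : ℕ =>
        (({p : ℕ | p ≤ X ∧ p.Prime ∧
            Independent p ⌊√(p / (ψ p * Real.log p))⌋₊}.ncard : ℕ) : ℝ)
          / (({p : ℕ | p ≤ X ∧ p.Prime}.ncard : ℕ) : ℝ))
      atTop (𝓝 1) := by
  classical
  have hψ' : Tendsto (fun p => ψ p / 2) atTop atTop := hψ.atTop_div_const (by norm_num)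
  have hgood := Pool.Agent.Results.MP_a3a416_nt.SparseIrregular.result 1 one_pos _ hψ'
  obtain ⟨P, hP⟩ := (hψ.eventually_ge_atTop 1).exists_forall_of_atTop
  set G : ℕ → Set ℕ := fun X => {p : ℕ | p ≤ X ∧ p.Prime ∧ ∀ K : ℕ,
    (Pool.Agent.Results.MP_a3a416_nt.SparseIrregular.irregularCount p K : ℝ) ≤
      ψ p / 2 * ((K : ℝ) ^ 2 * Real.log p / p) ^ (1 + 1 : ℝ)} with hG
  set I : ℕ → Set ℕ := fun X => {p : ℕ | p ≤ X ∧ p.Prime ∧
    Independent p ⌊√(p / (ψ p * Real.log p))⌋₊} with hI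
  set T : ℕ → Set ℕ := fun X => {p : ℕ | p ≤ X ∧ p.Prime} with hT
  have hTfin : ∀ X, (T X).Finite := fun X => (Set.finite_Iic X).subset fun p hp => hp.1
  have hIT : ∀ X, I X ⊆ T X := fun X p hp => ⟨hp.1, hp.2.1⟩
  have hGI : ∀ X, G X ⊆ I X ∪ (Finset.range P : Set ℕ) := by
    intro X p hp
    obtain ⟨h1, h2, h3⟩ := hp
    by_cases hpP : p < P
    · exact Or.inr (by simpa using hpP)
    left
    refine ⟨h1, h2, ?_⟩
    have hψ1 := hP p (not_lt.1 hpP)
    have : Fact p.Prime := ⟨h2⟩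
    set N := ⌊√(p / (ψ p * Real.log p))⌋₊ with hN
    have hp2 : (2 : ℝ) ≤ p := by exact_mod_cast h2.two_le
    have hp0 : (0 : ℝ) < p := by linarith
    have hlog : 0 < Real.log p := Real.log_pos (by linarith)
    have hψ0 : 0 < ψ p := by linarith
    refine indep_of N fun m hm1 hm2 _ hdvd => ?_
    have h4 := h3 N
    have h5 : 1 ≤ Pool.Agent.Results.MP_a3a416_nt.SparseIrregular.irregularCount p N := by
      unfold Pool.Agent.Results.MP_a3a416_nt.SparseIrregular.irregularCount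
      rw [Nat.one_le_iff_ne_zero, ← Nat.pos_iff_ne_zero, card_pos]
      exact ⟨m, mem_filter.2 ⟨mem_Icc.2 ⟨hm1, hm2.le⟩, hdvd⟩⟩
    have h5r : (1 : ℝ) ≤
        (Pool.Agent.Results.MP_a3a416_nt.SparseIrregular.irregularCount p N : ℝ) := by
      exact_mod_cast h5
    have h6 : (N : ℝ) ^ 2 ≤ p / (ψ p * Real.log p) := by
      have h7 : (N : ℝ) ≤ √(p / (ψ p * Real.log p)) := Nat.floor_le (Real.sqrt_nonneg _)
      have h8 : 0 ≤ (p : ℝ) / (ψ p * Real.log p) := by positivity
      calc (N : ℝ) ^ 2 ≤ √(p / (ψ p * Real.log p)) ^ 2 := by gcongr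
        _ = _ := Real.sq_sqrt h8
    have h7 : (N : ℝ) ^ 2 * Real.log p / p ≤ 1 / ψ p := by
      calc (N : ℝ) ^ 2 * Real.log p / p ≤ (p / (ψ p * Real.log p)) * Real.log p / p := by gcongr
        _ = 1 / ψ p := by field_simp
    have h8 : ((N : ℝ) ^ 2 * Real.log p / p) ^ (1 + 1 : ℝ) ≤ (1 / ψ p) ^ 2 := by
      have e : (1 + 1 : ℝ) = ((2 : ℕ) : ℝ) := by norm_num
      rw [e, Real.rpow_natCast]
      gcongr
    have h9 : ψ p / 2 * ((N : ℝ) ^ 2 * Real.log p / p) ^ (1 + 1 : ℝ) ≤ 1 / 2 := by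
      calc ψ p / 2 * ((N : ℝ) ^ 2 * Real.log p / p) ^ (1 + 1 : ℝ) ≤ ψ p / 2 * (1 / ψ p) ^ 2 := by
            gcongr
        _ = 1 / (2 * ψ p) := by field_simp
        _ ≤ 1 / 2 := by
          rw [div_le_div_iff₀ (by positivity) (by norm_num)]
          linarith
    linarith
  -- the number of the primes tends to infinity
  have hTt : Tendsto (fun X : ℕ => ((T X).ncard : ℝ)) atTop atTop := by
    have h1 : ∀ X : ℕ, (T X).ncard = Nat.primeCounting X := by
      intro X
      rw [Nat.primeCounting, Nat.primeCounting', Nat.count_eq_card_filter_range,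
        ← Set.ncard_coe_finset]
      congr 1
      ext p
      simp [hT]
    simp only [h1]
    exact tendsto_natCast_atTop_atTop.comp Nat.tendsto_primeCounting
  have hlim : Tendsto (fun X : ℕ => ((G X).ncard : ℝ) / ((T X).ncard : ℝ) -
      (P : ℝ) / ((T X).ncard : ℝ)) atTop (𝓝 (1 - 0)) :=
    hgood.sub (hTt.const_div_atTop (P : ℝ))
  rw [sub_zero] at hlim
  refine tendsto_of_tendsto_of_tendsto_of_le_of_le hlim tendsto_const_nhds (fun X => ?_) fun X => ?_
  · have h1 : (G X).ncard ≤ (I X).ncard + P := by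
      have hfin : (I X ∪ (Finset.range P : Set ℕ)).Finite :=
        ((hTfin X).subset (hIT X)).union (Finset.finite_toSet _)
      calc (G X).ncard ≤ (I X ∪ (Finset.range P : Set ℕ)).ncard :=
            Set.ncard_le_ncard (hGI X) hfin
        _ ≤ (I X).ncard + ((Finset.range P : Set ℕ)).ncard := Set.ncard_union_le _ _
        _ = (I X).ncard + P := by rw [Set.ncard_coe_finset, card_range]
    have h2 : ((G X).ncard : ℝ) - P ≤ (I X).ncard := by
      have : ((G X).ncard : ℝ) ≤ (I X).ncard + P := by exact_mod_cast h1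
      linarith
    change ((G X).ncard : ℝ) / ((T X).ncard : ℝ) - (P : ℝ) / ((T X).ncard : ℝ) ≤
      ((I X).ncard : ℝ) / ((T X).ncard : ℝ)
    rw [← sub_div]
    exact div_le_div_of_nonneg_right h2 (Nat.cast_nonneg _)
  · change ((I X).ncard : ℝ) / ((T X).ncard : ℝ) ≤ 1
    refine div_le_one_of_le₀ ?_ (Nat.cast_nonneg _)
    exact_mod_cast Set.ncard_le_ncard (hIT X) (hTfin X)

open Classical in
/-- the number of the residue classes modulo `h`, other than zero, without a regular index -/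
noncomputable def missing (p h : ℕ) : ℕ :=
  ∑ j ∈ range h, (1 - ((Pool.Agent.Results.MP_a3a416_nt.RegularClasses.reg p h j).card +
    if j = 0 then 1 else 0))

/-- geometric progressions: the core -/
theorem geo_core {p : ℕ} (hprime : p.Prime) (hp3 : 3 ≤ p) {K : Type} [Field K] [CharZero K]
    [IsCyclotomicExtension {p} ℚ K] {ζ : K} (hζ : IsPrimitiveRoot ζ p) (u r : (ZMod p)ˣ) (n : ℕ)
    (hn : n + missing p (orderOf (r ^ 2)) ≤ orderOf (r ^ 2)) (c : ℕ → ℤ)
    (hc : ∃ w y : K, IsRootOfUnity w ∧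
      ∏ i ∈ range n, (1 - ζ ^ ((u * r ^ i : (ZMod p)ˣ) : ZMod p).val) ^ (c i) = w * y ^ p) :
    ∀ i < n, (p : ℤ) ∣ c i := by
  classical
  intro i₀ hi₀
  have : Fact p.Prime := ⟨hprime⟩
  have hp2 : p % 2 = 1 := by
    rcases hprime.eq_two_or_odd with h1 | h1
    · omega
    · exact h1
  obtain ⟨w, y, hw, hprod⟩ := hc
  set h := orderOf (r ^ 2) with hh
  set reg := Pool.Agent.Results.MP_a3a416_nt.RegularClasses.reg with hreg
  set J := (range h).filter fun j => j = 0 ∨ (reg p h j).Nonempty with hJ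
  have hJcard : n ≤ J.card := by
    have h2 : ((range h).filter fun j => ¬ (j = 0 ∨ (reg p h j).Nonempty)).card ≤
        missing p h := by
      unfold missing
      rw [card_filter]
      refine sum_le_sum fun j _ => ?_
      by_cases hj : j = 0 ∨ (reg p h j).Nonempty
      · rw [if_neg (not_not.2 hj)]
        exact Nat.zero_le _
      · rw [if_pos hj]
        push Not at hj
        rw [if_neg hj.1, ← hreg, hj.2, card_empty]
    have h3 := card_filter_add_card_filter_not (s := range h)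
      fun j => j = 0 ∨ (reg p h j).Nonempty
    rw [card_range, ← hJ] at h3
    omega
  -- the conditions
  obtain ⟨h0, hk⟩ := kummer_int (by omega) hζ (range n)
    (fun i => ((u * r ^ i : (ZMod p)ˣ) : ZMod p).val)
    (fun i _ => ⟨by
      have h2 : ((u * r ^ i : (ZMod p)ˣ) : ZMod p) ≠ 0 := Units.ne_zero _
      have h3 : ((u * r ^ i : (ZMod p)ˣ) : ZMod p).val ≠ 0 := fun h4 =>
        h2 ((ZMod.val_eq_zero _).1 h4)
      omega, ZMod.val_lt _⟩) c w y hw hprod
  set ρ : ZMod p := ((r ^ 2 : (ZMod p)ˣ) : ZMod p) with hρ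
  set f : Polynomial (ZMod p) := ∑ i ∈ range n, Polynomial.C ((c i : ℤ) : ZMod p) * Polynomial.X ^ i
    with hf
  have hroot : ∀ j ∈ J, f.eval (ρ ^ j) = 0 := by
    intro j hj
    have he : ∀ z : ZMod p, f.eval z = ∑ i ∈ range n, ((c i : ℤ) : ZMod p) * z ^ i := by
      intro z
      rw [hf, Polynomial.eval_finsetSum]
      exact sum_congr rfl fun i _ => by simp
    rw [he]
    rw [hJ, mem_filter, mem_range] at hj
    obtain ⟨hjh, hj0 | ⟨i, hi⟩⟩ := hj
    · subst hj0
      simpa using h0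
    · rw [hreg] at hi
      unfold Pool.Agent.Results.MP_a3a416_nt.RegularClasses.reg at hi
      rw [mem_filter, mem_Icc] at hi
      obtain ⟨⟨hi1, hi2⟩, hi3, hi4⟩ := hi
      have h2 := hk (2 * i) (by omega) (by omega) hi4
      have hcon : ρ ^ i = ρ ^ j := by
        rw [hρ, ← Units.val_pow_eq_pow_val, ← Units.val_pow_eq_pow_val, ← hi3, hh, pow_mod_orderOf]
      have h3 : ∀ t : ℕ, (((u * r ^ t : (ZMod p)ˣ) : ZMod p).val : ZMod p) ^ (2 * i) =
          (u : ZMod p) ^ (2 * i) * (ρ ^ j) ^ t := by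
        intro t
        rw [ZMod.natCast_zmod_val, ← hcon, hρ]
        push_cast
        ring
      simp only [h3] at h2
      have h4 : (u : ZMod p) ^ (2 * i) * ∑ t ∈ range n, ((c t : ℤ) : ZMod p) * (ρ ^ j) ^ t = 0 := by
        rw [← h2, mul_sum]
        exact sum_congr rfl fun t _ => by ring
      exact (mul_eq_zero.1 h4).resolve_left (pow_ne_zero _ (Units.ne_zero u))
  have hf0 : f = 0 := by
    have hinj : Set.InjOn (fun j : ℕ => ρ ^ j) J := by
      intro a ha b hb hab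
      rw [hJ, mem_coe, mem_filter, mem_range] at ha hb
      have h2 : (r ^ 2) ^ a = (r ^ 2) ^ b := by
        apply Units.ext
        rw [Units.val_pow_eq_pow_val, Units.val_pow_eq_pow_val]
        exact hab
      exact pow_injOn_Iio_orderOf (Set.mem_Iio.2 (hh ▸ ha.1)) (Set.mem_Iio.2 (hh ▸ hb.1)) h2
    refine Polynomial.eq_zero_of_natDegree_lt_card_of_eval_eq_zero' f (J.image fun j => ρ ^ j)
      (fun z hz => ?_) ?_
    · obtain ⟨j, hj, rfl⟩ := mem_image.1 hz
      exact hroot j hj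
    · rw [card_image_of_injOn hinj]
      refine lt_of_lt_of_le ?_ hJcard
      have h2 : f.natDegree ≤ n - 1 := by
        rw [hf]
        refine Polynomial.natDegree_sum_le_of_forall_le _ _ fun i hi => ?_
        refine (Polynomial.natDegree_C_mul_X_pow_le _ _).trans ?_
        have := mem_range.1 hi
        omega
      omega
  have h2 : f.coeff i₀ = ((c i₀ : ℤ) : ZMod p) := by
    rw [hf, Polynomial.finsetSum_coeff]
    simp only [Polynomial.coeff_C_mul_X_pow]
    rw [sum_ite_eq, if_pos (mem_range.2 hi₀)]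
  rw [hf0, Polynomial.coeff_zero] at h2
  exact (ZMod.intCast_zmod_eq_zero_iff_dvd _ _).1 h2.symm

theorem order_dvd {p : ℕ} (hprime : p.Prime) (hp3 : 3 ≤ p) (r : (ZMod p)ˣ) :
    orderOf (r ^ 2) ∣ (p - 1) / 2 ∧ 0 < orderOf (r ^ 2) ∧ orderOf (r ^ 2) ≤ (p - 1) / 2 := by
  have : Fact p.Prime := ⟨hprime⟩
  have hp2 : p % 2 = 1 := by
    rcases hprime.eq_two_or_odd with h1 | h1
    · omega
    · exact h1
  have hdvd : orderOf (r ^ 2) ∣ (p - 1) / 2 := by
    refine orderOf_dvd_of_pow_eq_one ?_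
    rw [← pow_mul, show 2 * ((p - 1) / 2) = p - 1 by omega]
    exact ZMod.units_pow_card_sub_one_eq_one p r
  exact ⟨hdvd, Nat.pos_of_dvd_of_pos hdvd (by omega), Nat.le_of_dvd (by omega) hdvd⟩

/-- geometric progressions, every prime, explicit -/
theorem geo_explicit (p : ℕ) (hprime : p.Prime) (hp3 : 3 ≤ p) (K : Type) [Field K] [CharZero K]
    [IsCyclotomicExtension {p} ℚ K] (ζ : K) (hζ : IsPrimitiveRoot ζ p) (u r : (ZMod p)ˣ) (n : ℕ)
    (hn1 : n ≤ orderOf (r ^ 2))
    (hn : 4 * (2 * (orderOf (r ^ 2) : ℝ) * Real.log (2 * p)) ^ orderOf (r ^ 2) <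
      (p : ℝ) ^ (2 * (orderOf (r ^ 2) + 1 - n))) (c : ℕ → ℤ)
    (hc : ∃ w y : K, IsRootOfUnity w ∧
      ∏ i ∈ range n, (1 - ζ ^ ((u * r ^ i : (ZMod p)ˣ) : ZMod p).val) ^ (c i) = w * y ^ p) :
    ∀ i < n, (p : ℤ) ∣ c i := by
  obtain ⟨hdvd, hh0, hle⟩ := order_dvd hprime hp3 r
  refine geo_core hprime hp3 hζ u r n ?_ c hc
  have h1 := Pool.Agent.Results.MP_a3a416_nt.RegularClasses.result.2.2.1 p hprime (by omega)
    (orderOf (r ^ 2)) 1 hdvd (by rw [one_mul]; exact hle)
  rw [one_mul] at h1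
  have h2 : (p : ℝ) ^ (2 * missing p (orderOf (r ^ 2))) <
      (p : ℝ) ^ (2 * (orderOf (r ^ 2) + 1 - n)) := by
    refine lt_of_le_of_lt (le_trans (le_of_eq ?_) h1) hn
    unfold missing
    congr 2
  have h3 := (pow_lt_pow_iff_right₀ (by exact_mod_cast hprime.one_lt : (1 : ℝ) < p)).1 h2
  omega

/-- geometric progressions, all large primes -/
theorem geometric (ε : ℝ) (hε : 0 < ε) : ∃ P : ℕ, ∀ p : ℕ, P ≤ p → p.Prime →
    ∀ (K : Type) [Field K] [CharZero K] [IsCyclotomicExtension {p} ℚ K] (ζ : K),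
      IsPrimitiveRoot ζ p → ∀ (u r : (ZMod p)ˣ) (n : ℕ),
        (n : ℝ) ≤ (1 - Real.log (orderOf (r ^ 2)) / (2 * Real.log p) - ε) * orderOf (r ^ 2) →
          ∀ c : ℕ → ℤ, (∃ w y : K, IsRootOfUnity w ∧
            ∏ i ∈ range n, (1 - ζ ^ ((u * r ^ i : (ZMod p)ˣ) : ZMod p).val) ^ (c i) = w * y ^ p) →
              ∀ i < n, (p : ℤ) ∣ c i := by
  obtain ⟨P, hP⟩ := Pool.Agent.Results.MP_a3a416_nt.RegularClasses.result.2.2.2 ε hε
  refine ⟨max P 3, fun p hPp hprime K _ _ _ ζ hζ u r n hn c hc => ?_⟩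
  have hp3 : 3 ≤ p := (le_max_right _ _).trans hPp
  obtain ⟨hdvd, hh0, hle⟩ := order_dvd hprime hp3 r
  refine geo_core hprime hp3 hζ u r n ?_ c hc
  have h1 := hP p ((le_max_left _ _).trans hPp) hprime (orderOf (r ^ 2)) 1 hdvd le_rfl
    (by rw [one_mul]; exact hle)
  have h4 : (missing p (orderOf (r ^ 2)) : ℝ) ≤
      (Real.log (orderOf (r ^ 2)) / (2 * Real.log p) + ε) * orderOf (r ^ 2) := by
    refine le_trans (le_of_eq ?_) (h1.trans_eq ?_)
    · unfold missing
      norm_cast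
    · rw [one_mul]
  have h5 : ((n + missing p (orderOf (r ^ 2)) : ℕ) : ℝ) ≤ (orderOf (r ^ 2) : ℕ) := by
    push_cast
    nlinarith
  exact_mod_cast h5

end Pool.Agent.V7H48.KV
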